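import Pool.Agent.N708.MX.Stm

/-!
# Project MX, step ENDO: the endomorphism of `E_3(A)` and the centraliser of its image
-/

set_option autoImplicit false

namespace Pool.Agent.N767.MX

open Pool.Agent.N44.NS

section rel

variable {A : Type} [Ring A]

theorem el_add {i j : Fin 3} (h : i ≠ j) (a b : A) : el i j h (a + b) = el i j h a * el i j h b := by
  apply Units.ext
  change (1 + Matrix.single i j (a + b) : Matrix (Fin 3) (Fin 3) A) =
    (1 + Matrix.single i j a) * (1 + Matrix.single i j b)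
  rw [Matrix.single_add]
  simp only [mul_add, add_mul, one_mul, mul_one, single_sq h, add_zero]
  abel

theorem el_rel {i j k : Fin 3} (hij : i ≠ j) (hjk : j ≠ k) (hik : i ≠ k) (a b : A) :
    el i j hij a * el j k hjk b = el j k hjk b * (el i j hij a * el i k hik (a * b)) := by
  apply Units.ext
  change ((1 + Matrix.single i j a) * (1 + Matrix.single j k b) : Matrix (Fin 3) (Fin 3) A) =
    (1 + Matrix.single j k b) * ((1 + Matrix.single i j a) * (1 + Matrix.single i k (a * b)))
  have h1 : (Matrix.single i j a * Matrix.single j k b : Matrix (Fin 3) (Fin 3) A) =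
      Matrix.single i k (a * b) := Matrix.single_mul_single_same ..
  have h2 : (Matrix.single j k b * Matrix.single i j a : Matrix (Fin 3) (Fin 3) A) = 0 :=
    Matrix.single_mul_single_of_ne _ _ _ _ hik.symm _
  have h3 : (Matrix.single i j a * Matrix.single i k (a * b) : Matrix (Fin 3) (Fin 3) A) = 0 :=
    Matrix.single_mul_single_of_ne _ _ _ _ hij.symm _
  have h4 : (Matrix.single j k b * Matrix.single i k (a * b) : Matrix (Fin 3) (Fin 3) A) = 0 :=
    Matrix.single_mul_single_of_ne _ _ _ _ hik.symm _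
  simp only [mul_add, add_mul, one_mul, mul_one, h1, h2, h3, h4, add_zero]
  abel

/-- the elementary matrices as elements of `E_3(A)` -/
def eE (i j : Fin 3) (h : i ≠ j) (a : A) : E3 A :=
  ⟨el i j h a, Subgroup.subset_closure ⟨i, j, h, a, rfl⟩⟩

theorem eE_add {i j : Fin 3} (h : i ≠ j) (a b : A) : eE i j h (a + b) = eE i j h a * eE i j h b :=
  Subtype.ext (el_add h a b)

theorem eE_rel {i j k : Fin 3} (hij : i ≠ j) (hjk : j ≠ k) (hik : i ≠ k) (a b : A) :
    eE i j hij a * eE j k hjk b = eE j k hjk b * (eE i j hij a * eE i k hik (a * b)) :=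
  Subtype.ext (el_rel hij hjk hik a b)

end rel

theorem third (i j : Fin 3) (_h : i ≠ j) : ∃ l : Fin 3, i ≠ l ∧ l ≠ j := by
  revert i j
  decide

variable {A : Type} [Ring A]

/-- the monoid homomorphism `M ↦ ψ(M) + e` on matrices -/
def Phi (ψ : A →ₙ+* A) : Matrix (Fin 3) (Fin 3) A →* Matrix (Fin 3) (Fin 3) A where
  toFun M := M.map ψ + Matrix.diagonal fun _ => 1 - ψ 1
  map_one' := by
    ext i j
    rw [Matrix.add_apply, Matrix.map_apply]
    by_cases h : i = j
    · subst h
      simp
    · simp [Matrix.one_apply_ne h, Matrix.diagonal_apply_ne _ h]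
  map_mul' M N := by
    have h1 : ∀ a, ψ a * (1 - ψ 1) = 0 := fun a => by
      rw [mul_sub, mul_one, ← map_mul, mul_one, sub_self]
    have h2 : ∀ a, (1 - ψ 1) * ψ a = 0 := fun a => by
      rw [sub_mul, one_mul, ← map_mul, one_mul, sub_self]
    have h3 : (1 - ψ 1) * (1 - ψ 1) = (1 - ψ 1 : A) := by
      rw [mul_sub, mul_one]
      rw [h2, sub_zero]
    have e1 : (M * N).map ψ = M.map ψ * N.map ψ := by
      ext i j
      simp only [Matrix.map_apply, Matrix.mul_apply, map_sum, map_mul]
    have e2 : M.map ψ * (Matrix.diagonal fun _ => 1 - ψ 1) = 0 := by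
      ext i j
      rw [Matrix.mul_diagonal, Matrix.map_apply, h1, Matrix.zero_apply]
    have e3 : (Matrix.diagonal fun _ => 1 - ψ 1) * N.map ψ = 0 := by
      ext i j
      rw [Matrix.diagonal_mul, Matrix.map_apply, h2, Matrix.zero_apply]
    rw [add_mul, mul_add, mul_add, e1, e2, e3, Matrix.diagonal_mul_diagonal, h3, add_zero, zero_add]

theorem Phi_apply (ψ : A →ₙ+* A) (M : Matrix (Fin 3) (Fin 3) A) :
    Phi ψ M = M.map ψ + Matrix.diagonal fun _ => 1 - ψ 1 := rfl

theorem Phi_el (ψ : A →ₙ+* A) (i j : Fin 3) (h : i ≠ j) (a : A) :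
    Units.map (Phi ψ) (el i j h a) = el i j h (ψ a) := by
  apply Units.ext
  change Phi ψ (1 + Matrix.single i j a) = 1 + Matrix.single i j (ψ a)
  have h1 : (1 + Matrix.single i j a : Matrix (Fin 3) (Fin 3) A).map ψ =
      (1 : Matrix (Fin 3) (Fin 3) A).map ψ + Matrix.single i j (ψ a) := by
    ext k l
    simp only [Matrix.map_apply, Matrix.add_apply, map_add]
    congr 1
    simp only [Matrix.single_apply]
    split_ifs
    · rfl
    · exact map_zero ψ
  rw [Phi_apply, h1, add_right_comm, ← Phi_apply, map_one]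

theorem t_endo : Pool.Agent.N708.MX.S_ENDO := by
  intro A _ ψ p q hpq
  set e : A := 1 - ψ 1 with he
  have h1 : ∀ a, ψ a * e = 0 := fun a => by
    rw [he, mul_sub, mul_one, ← map_mul, mul_one, sub_self]
  have h2 : ∀ a, e * ψ a = 0 := fun a => by
    rw [he, sub_mul, one_mul, ← map_mul, one_mul, sub_self]
  have hmem : ∀ x : E3 A, ((Units.map (Phi ψ)).comp (E3 A).subtype) x ∈ E3 A := by
    have h3 : E3 A ≤ (E3 A).comap (Units.map (Phi ψ)) := by
      rw [E3, Subgroup.closure_le]
      rintro _ ⟨i, j, h, a, rfl⟩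
      rw [SetLike.mem_coe, Subgroup.mem_comap, Phi_el]
      exact Subgroup.subset_closure ⟨i, j, h, ψ a, rfl⟩
    exact fun x => h3 x.2
  let φ : E3 A →* E3 A := ((Units.map (Phi ψ)).comp (E3 A).subtype).codRestrict (E3 A) hmem
  have hφ : ∀ x : E3 A, ((φ x : E3 A) : (Matrix (Fin 3) (Fin 3) A)ˣ) = Units.map (Phi ψ) x :=
    fun _ => rfl
  refine ⟨φ, ?_, ?_⟩
  · intro i j hij a
    rw [hφ]
    exact Phi_el ψ i j hij a
  set N : Subgroup (E3 A) := Subgroup.normalClosure {x : E3 A | ∃ c k : E3 A,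
    (∀ a, c * φ a = φ a * c) ∧ x = c * k * c⁻¹ * k⁻¹} with hN
  have hNn : N.Normal := Subgroup.normalClosure_normal
  -- the centraliser
  have hc : ∀ (i j : Fin 3) (h : i ≠ j) (x : E3 A), eE i j h e * φ x = φ x * eE i j h e := by
    intro i j h x
    apply Subtype.ext
    rw [Subgroup.coe_mul, Subgroup.coe_mul, hφ]
    apply Units.ext
    change (1 + Matrix.single i j e) * Phi ψ (x : (Matrix (Fin 3) (Fin 3) A)ˣ) =
      Phi ψ (x : (Matrix (Fin 3) (Fin 3) A)ˣ) * (1 + Matrix.single i j e)
    rw [Phi_apply]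
    generalize ((x : (Matrix (Fin 3) (Fin 3) A)ˣ) : Matrix (Fin 3) (Fin 3) A) = M
    have e1 : Matrix.single i j e * M.map ψ = 0 := by
      ext k l
      rw [Matrix.mul_apply, Matrix.zero_apply]
      apply Finset.sum_eq_zero
      intro m _
      rw [Matrix.single_apply, Matrix.map_apply]
      split_ifs
      · exact h2 _
      · exact zero_mul _
    have e2 : M.map ψ * Matrix.single i j e = 0 := by
      ext k l
      rw [Matrix.mul_apply, Matrix.zero_apply]
      apply Finset.sum_eq_zero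
      intro m _
      rw [Matrix.single_apply, Matrix.map_apply]
      split_ifs
      · exact h1 _
      · exact mul_zero _
    have e3 : Matrix.single i j e * (Matrix.diagonal fun _ => 1 - ψ 1 : Matrix (Fin 3) (Fin 3) A) =
        (Matrix.diagonal fun _ => 1 - ψ 1 : Matrix (Fin 3) (Fin 3) A) * Matrix.single i j e := by
      ext k l
      rw [Matrix.mul_diagonal, Matrix.diagonal_mul, Matrix.single_apply]
      split_ifs
      · rfl
      · rw [zero_mul, mul_zero]
    simp only [add_mul, mul_add, one_mul, mul_one, e1, e2, e3]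
    abel
  have hA : ∀ (i l : Fin 3) (h : i ≠ l) (b : A), eE i l h (e * b) ∈ N := by
    intro i l h b
    obtain ⟨j, hij, hjl⟩ := third i l h
    have hx : eE i j hij e * eE j l hjl b * (eE i j hij e)⁻¹ * (eE j l hjl b)⁻¹ ∈ N :=
      Subgroup.subset_normalClosure ⟨_, _, hc i j hij, rfl⟩
    have hy := hNn.conj_mem _ hx (eE j l hjl b * eE i j hij e)⁻¹
    have hr := eE_rel hij hjl h e b
    have h5 : eE i l h (e * b) = (eE j l hjl b * eE i j hij e)⁻¹ *
        (eE i j hij e * eE j l hjl b * (eE i j hij e)⁻¹ * (eE j l hjl b)⁻¹) *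
        ((eE j l hjl b * eE i j hij e)⁻¹)⁻¹ := by
      rw [hr]
      group
    rw [h5]
    exact hy
  have hB : ∀ (j l : Fin 3) (h : j ≠ l) (a b : A), eE j l h (a * (e * b)) ∈ N := by
    intro j l h a b
    obtain ⟨i, hji, hil⟩ := third j l h
    have hy := hA i l hil b
    have hx := hNn.conj_mem _ (inv_mem hy) (eE j i hji a)⁻¹
    have hr := eE_rel hji hil h a (e * b)
    have h5 : eE j l h (a * (e * b)) = ((eE j i hji a)⁻¹ * (eE i l hil (e * b))⁻¹ *
        ((eE j i hji a)⁻¹)⁻¹) * eE i l hil (e * b) := by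
      have h6 : eE j l h (a * (e * b)) = (eE j i hji a)⁻¹ * (eE i l hil (e * b))⁻¹ *
          (eE i l hil (e * b) * (eE j i hji a * eE j l h (a * (e * b)))) := by group
      rw [h6, ← hr]
      group
    rw [h5]
    exact mul_mem hx hy
  have hall : ∀ (j l : Fin 3) (h : j ≠ l) (a : A), eE j l h a ∈ N := by
    intro j l h a
    have h5 : a = 1 * (e * a) + p * (e * (q * a)) := by
      have h6 : p * (e * (q * a)) = ψ 1 * a := by
        rw [← hpq]
        simp only [mul_assoc]
      rw [h6, one_mul, he, sub_mul, one_mul]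
      abel
    rw [h5, eE_add]
    exact mul_mem (hB j l h 1 a) (hB j l h p (q * a))
  rw [eq_top_iff]
  rintro ⟨x, hx⟩ -
  refine Subgroup.closure_induction (p := fun x hx => (⟨x, hx⟩ : E3 A) ∈ N) ?_ ?_ ?_ ?_ hx
  · rintro x ⟨i, j, h, a, rfl⟩
    exact hall i j h a
  · exact one_mem _
  · intro x y hx hy h1 h2
    exact mul_mem h1 h2
  · intro x hx h1
    exact inv_mem h1

end Pool.Agent.N767.MX
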